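import Pool.Agent.Helper99.SZ.Stmts3

/-!
# The data for the twelfth powers, third part
-/

set_option autoImplicit false

namespace Pool.Helper99.SZ

open NumberField

theorem p123_val {L : Type} [Field L] {n : ℕ} (g0 : L) (g : Fin n → L) (a : ℤ × (Fin n → ℤ)) :
    (g0 ^ 12) ^ a.1 * ∏ i, (g i ^ 12) ^ (a.2 i) =
      g0 ^ ((12 : ℤ) • a).1 * ∏ i, g i ^ (((12 : ℤ) • a).2 i) := by
  have h1 : ∀ (x : L) (k : ℤ), (x ^ 12) ^ k = x ^ (12 * k) := by
    intro x k
    rw [zpow_mul]
    norm_cast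
  rw [h1]
  have h2 : ∏ i, (g i ^ 12) ^ (a.2 i) = ∏ i, g i ^ (((12 : ℤ) • a).2 i) := by
    refine Finset.prod_congr rfl fun i _ => ?_
    rw [h1]
    rfl
  rw [h2]
  rfl

theorem st_P123 : ST_P123 := by
  intro L _ _ n g0 g nrm G Z h
  have h12 : ∀ a, nrm ((12 : ℤ) • a) = 12 * nrm a := by
    intro a
    rw [h.smul]
    norm_num
  have h0 : ∀ a, 0 ≤ nrm a := by
    intro a
    exact (abs_nonneg _).trans (h.co0 a)
  have h0' : ∀ a, nrm a ≤ 12 * nrm a := by
    intro a
    have := h0 a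
    linarith
  refine ⟨pow_ne_zero _ h.ne0, fun i => pow_ne_zero _ (h.ne i), ?_, ?_, ?_, ?_, ?_, ?_, ?_, ?_, ?_⟩
  · intro a b
    have := h.add a b
    show 12 * nrm (a + b) ≤ 12 * nrm a + 12 * nrm b
    linarith
  · intro k a
    show 12 * nrm (k • a) = |(k : ℝ)| * (12 * nrm a)
    rw [h.smul]
    ring
  · intro a τ
    show _ ≤ Real.exp (12 * nrm a)
    have := h.conj ((12 : ℤ) • a) τ
    rw [h12, ← p123_val] at this
    exact this
  · intro a
    obtain ⟨q, hq1, hq2, hq3⟩ := h.den ((12 : ℤ) • a)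
    rw [h12] at hq2
    rw [← p123_val] at hq3
    exact ⟨q, hq1, hq2, hq3⟩
  · intro a
    exact (h.co0 a).trans (h0' a)
  · intro a i
    show _ ≤ Z * (12 * nrm a)
    have h1 := h.coo a i
    have h2 : 0 ≤ Z * nrm a := (abs_nonneg _).trans h1
    linarith
  · intro ρ
    exact (h.fin ρ).subset fun a ha => (h0' a).trans ha
  · intro k hk
    have h1 := h.tor (12 * k) (mul_ne_zero (by norm_num) hk)
    rw [zpow_mul] at h1
    intro h2
    apply h1
    rw [← h2]
    norm_cast
  · intro a ha h1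
    rw [p123_val] at h1
    have h2 := h.ker ((12 : ℤ) • a) ?_ h1
    · rw [h12] at h2
      exact h2
    · intro h3
      apply ha
      refine Prod.ext ?_ ?_
      · have h4 : (12 : ℤ) * a.1 = 0 := congrArg Prod.fst h3
        show a.1 = 0
        omega
      · funext i
        have h4 : (12 : ℤ) * a.2 i = 0 := congrFun (congrArg Prod.snd h3) i
        show a.2 i = 0
        omega

end Pool.Helper99.SZ
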