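import Pool.Agent.Helper99.SZ.Stmts3

set_option autoImplicit false

/-! Module PMU: the recursion contradicts the growth of the number of small elements. -/

namespace Pool.Helper99.SZ

open NumberField

/-- numerical part -/
theorem pmu_num (n : ℕ) (D : ℝ) (G X U ℓ Θ K Lc ρ : ℝ) (hD : 1 ≤ D) (hG : 1 ≤ G) (hX : G ≤ X)
    (hℓ : 1 ≤ ℓ) (hΘ : 10 ^ 9 * ((n : ℝ) + 1) ^ 5 * D ^ 2 * (1 + ℓ / G) ≤ Θ)
    (hρ : ρ = 2 * X * Θ ^ n) (hU : U = 4 * ((n : ℝ) + 1) * ρ)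
    (hL0 : 0 ≤ Lc) (hK1 : 4096 * ((n : ℝ) + 1) * D * U / G ≤ K)
    (hK : K ≤ 4096 * ((n : ℝ) + 1) * D * U / G + 1)
    (hL : Lc ≤ 4096 * ((n : ℝ) + 1) ^ 2 * D * ℓ / G + 1 + 32 * ((n : ℝ) + 1)) :
    1 ≤ Θ ∧ X ≤ ρ ∧ ρ ≤ U ∧ U + G ≤ K * G ∧ 4 * ((n : ℝ) + 1) * K * Lc ≤ Θ * ρ / G := by
  obtain ⟨N, hN⟩ : ∃ N : ℝ, N = (n : ℝ) + 1 := ⟨_, rfl⟩
  have hN1 : 1 ≤ N := by rw [hN]; linarith [(Nat.cast_nonneg n : (0 : ℝ) ≤ n)]
  rw [← hN] at hΘ hU hK1 hK hL ⊢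
  have hG0 : 0 < G := by linarith
  obtain ⟨m, hm⟩ : ∃ m : ℝ, m = ℓ / G := ⟨_, rfl⟩
  have hm0 : 0 ≤ m := by rw [hm]; positivity
  have hD2 : 1 ≤ D ^ 2 := one_le_pow₀ hD
  have hND : 1 ≤ N ^ 5 * D ^ 2 * (1 + m) := by
    have h1 : 1 ≤ N ^ 5 * D ^ 2 := one_le_mul_of_one_le_of_one_le (one_le_pow₀ hN1) hD2
    exact one_le_mul_of_one_le_of_one_le h1 (by linarith)
  rw [← hm] at hΘ
  have hΘ1 : 1 ≤ Θ := by linarith
  have hΘn : 1 ≤ Θ ^ n := one_le_pow₀ hΘ1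
  have hX0 : 0 < X := by linarith
  have hXρ : 2 * X ≤ ρ := by
    rw [hρ]
    exact le_mul_of_one_le_right (by linarith) hΘn
  have hρ0 : 0 < ρ := by linarith
  have hρU : 4 * ρ ≤ U := by
    rw [hU]
    have := mul_le_mul_of_nonneg_right hN1 (show 0 ≤ 4 * ρ by linarith)
    linarith
  have hUG : 8 * G ≤ U := by linarith
  obtain ⟨u, hu⟩ : ∃ u : ℝ, u = U / G := ⟨_, rfl⟩
  have hu8 : 8 ≤ u := by rw [hu, le_div_iff₀ hG0]; exact hUG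
  have hKu : K ≤ 4096 * (N * D * u) + 1 := by
    have : 4096 * N * D * U / G = 4096 * (N * D * u) := by rw [hu]; ring
    rw [this] at hK
    exact hK
  have hND1 : 1 ≤ N * D := one_le_mul_of_one_le_of_one_le hN1 hD
  have hNDu : 1 ≤ N * D * u := one_le_mul_of_one_le_of_one_le hND1 (by linarith)
  have hK2 : K ≤ 4097 * (N * D * u) := by linarith
  have hLm : Lc ≤ 4096 * (N ^ 2 * D * m) + 1 + 32 * N := by
    have : 4096 * N ^ 2 * D * ℓ / G = 4096 * (N ^ 2 * D * m) := by rw [hm]; ring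
    rw [this] at hL
    exact hL
  have hNle : N ≤ N ^ 2 * D := by
    have h1 : N ≤ N * (N * D) := le_mul_of_one_le_right (by linarith) hND1
    calc N ≤ N * (N * D) := h1
      _ = N ^ 2 * D := by ring
  have hL2 : Lc ≤ 4129 * (N ^ 2 * D * (1 + m)) := by
    have h1 : 0 ≤ N ^ 2 * D * m := by positivity
    have h2 : 4129 * (N ^ 2 * D * (1 + m)) = 4129 * (N ^ 2 * D) + 4129 * (N ^ 2 * D * m) := by ring
    rw [h2]
    linarith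
  refine ⟨hΘ1, by linarith, by linarith, ?_, ?_⟩
  · rw [div_le_iff₀ hG0] at hK1
    have h1 : U ≤ N * D * U := le_mul_of_one_le_left (by linarith) hND1
    linarith
  · have hKL : K * Lc ≤ 4097 * (N * D * u) * (4129 * (N ^ 2 * D * (1 + m))) :=
      mul_le_mul hK2 hL2 hL0 (by linarith)
    have h1 : 4 * N * K * Lc = 4 * N * (K * Lc) := by ring
    have h2 := mul_le_mul_of_nonneg_left hKL (show 0 ≤ 4 * N by linarith)
    rw [h1]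
    refine h2.trans ?_
    have h3 : 4 * N * (4097 * (N * D * u) * (4129 * (N ^ 2 * D * (1 + m)))) =
        270664208 * (N ^ 5 * D ^ 2 * (1 + m)) * (ρ / G) := by rw [hu, hU]; ring
    rw [h3]
    have h4 : Θ * ρ / G = Θ * (ρ / G) := by ring
    rw [h4]
    apply mul_le_mul_of_nonneg_right _ (by positivity)
    linarith

theorem st_PMU (hRC : ST_RCU) : ST_PMU := by
  intro n D hD L _ _ g0 g nrm G Z X U ℓ Θ K Lc hG hLD hX hℓ hΘ hU hKd hLd hcount hU1 hvan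
  have hD1 : (1 : ℝ) ≤ (D : ℝ) := by exact_mod_cast hD
  have hG0 : 0 < G := by linarith
  have hX0 : 0 < X := by linarith
  have hΘ0 : 0 ≤ Θ := by
    refine le_trans ?_ hΘ
    positivity
  have hU0 : 0 ≤ U := by rw [hU]; positivity
  obtain ⟨ρ, hρ⟩ : ∃ ρ : ℝ, ρ = 2 * X * Θ ^ n := ⟨_, rfl⟩
  have hUρ : U = 4 * ((n : ℝ) + 1) * ρ := by rw [hU, hρ]; ring
  have hK1 : 4096 * ((n : ℝ) + 1) * D * U / G ≤ K := by rw [hKd]; exact Nat.le_ceil _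
  have hK2 : (K : ℝ) ≤ 4096 * ((n : ℝ) + 1) * D * U / G + 1 := by
    rw [hKd]; exact (Nat.ceil_lt_add_one (by positivity)).le
  have hL2 : (Lc : ℝ) ≤ 4096 * ((n : ℝ) + 1) ^ 2 * D * ℓ / G + 1 + 32 * ((n : ℝ) + 1) := by
    rw [hLd]
    push_cast
    have := (Nat.ceil_lt_add_one (show 0 ≤ 4096 * ((n : ℝ) + 1) ^ 2 * D * ℓ / G by positivity)).le
    linarith
  have hLc1 : 1 ≤ Lc := by rw [hLd]; omega
  obtain ⟨hΘ1, hXρ, hρU, hKG, hmain⟩ := pmu_num n D G X U ℓ Θ K Lc ρ hD1 hG hX hℓ hΘ hρ hUρ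
    (Nat.cast_nonneg _) hK1 hK2 hL2
  have hρ0 : 0 < ρ := by linarith
  have hrc := hRC L n g0 g nrm G Z U ρ K Lc hG0 hLD hρ0.le hUρ.ge hU1 hKG hLc1 hvan n ⊤
    (by rw [finrank_top, Module.finrank_fin_fun])
  have hset : {z : (ℤ × (Fin n → ℤ)) × (ℤ × (Fin n → ℤ)) | nrm z.1 ≤ ρ ∧ nrm z.2 ≤ ρ ∧
        (fun i => (((z.1 - z.2).2 i : ℤ) : ℚ)) ∈ (⊤ : Submodule ℚ (Fin n → ℚ))} =
      {a : ℤ × (Fin n → ℤ) | nrm a ≤ ρ} ×ˢ {a : ℤ × (Fin n → ℤ) | nrm a ≤ ρ} := by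
    ext z
    simp
  rw [hset, Set.ncard_prod] at hrc
  obtain ⟨S, hS⟩ : ∃ S : ℕ, S = {a : ℤ × (Fin n → ℤ) | nrm a ≤ ρ}.ncard := ⟨_, rfl⟩
  have hc := hcount ρ hXρ hρU
  rw [← hS] at hc hrc
  push_cast at hrc
  have h1 : (4 * ((n : ℝ) + 1) * K * Lc) ^ n ≤ (Θ * ρ / G) ^ n :=
    pow_le_pow_left₀ (by positivity) hmain n
  have h2 : X * G ^ n * (2 * (Θ * ρ / G) ^ n) = ρ ^ (n + 1) := by
    have h3 : ρ ^ (n + 1) = ρ ^ n * ρ := pow_succ _ _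
    rw [h3]
    nth_rewrite 3 [hρ]
    rw [div_pow, mul_pow]
    have h4 : G ^ n ≠ 0 := by positivity
    field_simp
    try ring
  rw [← h2] at hc
  have h3 : 2 * (Θ * ρ / G) ^ n ≤ (S : ℝ) := le_of_mul_le_mul_left hc (by positivity)
  have h4 : 2 * (4 * ((n : ℝ) + 1) * K * Lc) ^ n * (S : ℝ) ≤ (S : ℝ) * S := by
    apply mul_le_mul_of_nonneg_right _ (Nat.cast_nonneg _)
    linarith
  linarith

end Pool.Helper99.SZ
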