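import Pool.Agent.Helper99.SZ.Stmts3

set_option autoImplicit false

/-! Module SHA: a real linear form on a rational subspace, the coordinate with the largest
coefficient. -/

namespace Pool.Helper99.SZ

open NumberField

theorem sha_lin (n v : ℕ) (V : Submodule ℚ (Fin n → ℚ)) (hV : Module.finrank ℚ V = v)
    (J : Fin v → Fin n) (hJ : ∀ x ∈ V, (∀ i, x (J i) = 0) → x = 0) :
    ∃ b : Fin n → Fin v → ℚ, ∀ x ∈ V, ∀ i, x i = ∑ j, b i j * x (J j) := by
  obtain ⟨T, hT⟩ : ∃ T : V →ₗ[ℚ] (Fin v → ℚ), ∀ x j, T x j = (x : Fin n → ℚ) (J j) :=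
    ⟨{ toFun := fun x j => (x : Fin n → ℚ) (J j), map_add' := fun _ _ => rfl,
       map_smul' := fun _ _ => rfl }, fun _ _ => rfl⟩
  have hinj : Function.Injective T := by
    rw [injective_iff_map_eq_zero]
    intro x hx
    have := hJ x x.2 (fun i => by rw [← hT, hx]; rfl)
    exact Subtype.ext this
  have hfr : Module.finrank ℚ V = Module.finrank ℚ (Fin v → ℚ) := by
    rw [hV, Module.finrank_fin_fun]
  obtain ⟨E, hE⟩ : ∃ E : V ≃ₗ[ℚ] (Fin v → ℚ), ∀ x, E x = T x :=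
    ⟨LinearEquiv.ofInjectiveOfFinrankEq T hinj hfr, fun x => rfl⟩
  refine ⟨fun i j => (E.symm (Pi.single j 1) : Fin n → ℚ) i, fun x hx i => ?_⟩
  have h1 : (E.symm (E ⟨x, hx⟩) : Fin n → ℚ) i = x i := by
    rw [E.symm_apply_apply]
  have h2 : E ⟨x, hx⟩ = ∑ j, (x (J j)) • (Pi.single j (1 : ℚ) : Fin v → ℚ) := by
    funext j
    rw [hE, hT, Finset.sum_apply]
    simp [Pi.single_apply]
  rw [← h1, h2, map_sum, Submodule.coe_sum, Finset.sum_apply]
  refine Finset.sum_congr rfl fun j _ => ?_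
  rw [map_smul]
  show x (J j) * (E.symm (Pi.single j 1) : Fin n → ℚ) i = _
  ring

theorem st_SHA : ST_SHA := by
  intro n v hv V hV J hJ c
  obtain ⟨b, hb⟩ := sha_lin n v V hV J hJ
  obtain ⟨d, hd⟩ : ∃ d : Fin v → ℝ, ∀ j, d j = ∑ i, c i * (b i j : ℝ) := ⟨_, fun _ => rfl⟩
  have hsum : ∀ z : Fin n → ℤ, (fun i => ((z i : ℤ) : ℚ)) ∈ V →
      ∑ i, c i * (z i : ℝ) = ∑ j, d j * (z (J j) : ℝ) := by
    intro z hz
    have h1 : ∀ i, (z i : ℝ) = ∑ j, (b i j : ℝ) * (z (J j) : ℝ) := by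
      intro i
      have h2 := hb _ hz i
      have h3 : (((z i : ℤ) : ℚ) : ℝ) = ((∑ j, b i j * ((z (J j) : ℤ) : ℚ) : ℚ) : ℝ) := by
        rw [← h2]
      push_cast at h3
      exact h3
    have h2 : ∀ j, d j * (z (J j) : ℝ) = ∑ i, c i * (b i j : ℝ) * (z (J j) : ℝ) := by
      intro j
      rw [hd, Finset.sum_mul]
    rw [Finset.sum_congr rfl fun j _ => h2 j, Finset.sum_comm]
    refine Finset.sum_congr rfl fun i _ => ?_
    rw [h1 i, Finset.mul_sum]
    exact Finset.sum_congr rfl fun j _ => by ring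
  have hne : Nonempty (Fin v) := ⟨⟨0, hv⟩⟩
  obtain ⟨j1, hj1⟩ := Finite.exists_max fun j => |d j|
  by_cases h0 : d j1 = 0
  · have hall : ∀ j, d j = 0 := by
      intro j
      have := hj1 j
      rw [h0, abs_zero] at this
      exact abs_eq_zero.1 (le_antisymm this (abs_nonneg _))
    refine ⟨j1, 0, fun _ => 0, fun j => by simp, fun z hz => ?_⟩
    rw [hsum z hz, zero_mul]
    exact Finset.sum_eq_zero fun j _ => by rw [hall j, zero_mul]
  · refine ⟨j1, d j1, fun j => -(d j / d j1), fun j => ?_, fun z hz => ?_⟩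
    · rw [abs_neg, abs_div, div_le_one (abs_pos.2 h0)]
      exact hj1 j
    · rw [hsum z hz, ← Finset.add_sum_erase _ _ (Finset.mem_univ j1), mul_sub, Finset.mul_sum,
        sub_eq_add_neg, ← Finset.sum_neg_distrib]
      congr 1
      refine Finset.sum_congr rfl fun j _ => ?_
      field_simp
      try ring

end Pool.Helper99.SZ
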